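import Pool.Agent.Helper64.RFn.GoalsS

/-! Packet SCA2 of project RFn (MP_c98eff_gt, helper64). -/

open MeasureTheory Set Matrix

open scoped RealInnerProductSpace

namespace Pool.Agent.Helper58.RFn

open Pool.Agent.Helper47.RFn (EE MF pd Hom0 Sm IsMetric cyl Chr Rup Rm ip gvol Tan nn)
open Pool.Agent.Helper64.RFn

/-! ### Multilinear algebra -/

theorem Q_lin {N : ℕ} (T : Fin N → Fin N → Fin N → Fin N → ℝ) (x : Fin N → ℝ)
    (h1 : ∀ j k l, ∑ i, x i * T i j k l = 0) (h2 : ∀ i k l, ∑ j, x j * T i j k l = 0)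
    (h3 : ∀ i j l, ∑ k, x k * T i j k l = 0) (h4 : ∀ i j k, ∑ l, x l * T i j k l = 0)
    (r α β γ δ : ℝ) (u v w z : Fin N → ℝ) :
    ∑ i, ∑ j, ∑ k, ∑ l, T i j k l * (r * u i + α * x i) * (r * v j + β * x j) *
      (r * w k + γ * x k) * (r * z l + δ * x l) =
      r ^ 4 * ∑ i, ∑ j, ∑ k, ∑ l, T i j k l * u i * v j * w k * z l := by
  have s4 : ∀ (U V W : Fin N → ℝ), ∑ i, ∑ j, ∑ k, ∑ l, T i j k l * U i * V j * W k *
      (r * z l + δ * x l) = r * ∑ i, ∑ j, ∑ k, ∑ l, T i j k l * U i * V j * W k * z l := by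
    intro U V W
    simp only [Finset.mul_sum]
    refine Finset.sum_congr rfl fun i _ => Finset.sum_congr rfl fun j _ =>
      Finset.sum_congr rfl fun k _ => ?_
    have : ∀ l, T i j k l * U i * V j * W k * (r * z l + δ * x l) =
        r * (T i j k l * U i * V j * W k * z l) + (δ * U i * V j * W k) * (x l * T i j k l) := by
      intro l; ring
    simp only [this]
    rw [Finset.sum_add_distrib, ← Finset.mul_sum (a := δ * U i * V j * W k), h4]
    ring
  have s3 : ∀ (U V : Fin N → ℝ), ∑ i, ∑ j, ∑ k, ∑ l, T i j k l * U i * V j *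
      (r * w k + γ * x k) * z l = r * ∑ i, ∑ j, ∑ k, ∑ l, T i j k l * U i * V j * w k * z l := by
    intro U V
    simp only [Finset.mul_sum]
    refine Finset.sum_congr rfl fun i _ => Finset.sum_congr rfl fun j _ => ?_
    rw [Finset.sum_comm]
    rw [Finset.sum_comm (f := fun k l => r * (T i j k l * U i * V j * w k * z l))]
    refine Finset.sum_congr rfl fun l _ => ?_
    have : ∀ k, T i j k l * U i * V j * (r * w k + γ * x k) * z l =
        r * (T i j k l * U i * V j * w k * z l) + (γ * U i * V j * z l) * (x k * T i j k l) := by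
      intro k; ring
    simp only [this]
    rw [Finset.sum_add_distrib, ← Finset.mul_sum (a := γ * U i * V j * z l), h3]
    ring
  have s2 : ∀ (U : Fin N → ℝ), ∑ i, ∑ j, ∑ k, ∑ l, T i j k l * U i *
      (r * v j + β * x j) * w k * z l =
      r * ∑ i, ∑ j, ∑ k, ∑ l, T i j k l * U i * v j * w k * z l := by
    intro U
    simp only [Finset.mul_sum]
    refine Finset.sum_congr rfl fun i _ => ?_
    have e : ∀ f : Fin N → Fin N → Fin N → ℝ, ∑ j, ∑ k, ∑ l, f j k l = ∑ k, ∑ l, ∑ j, f j k l := by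
      intro f
      rw [Finset.sum_comm]
      exact Finset.sum_congr rfl fun k _ => Finset.sum_comm
    rw [e, e (fun j k l => r * (T i j k l * U i * v j * w k * z l))]
    refine Finset.sum_congr rfl fun k _ => Finset.sum_congr rfl fun l _ => ?_
    have : ∀ j, T i j k l * U i * (r * v j + β * x j) * w k * z l =
        r * (T i j k l * U i * v j * w k * z l) + (β * U i * w k * z l) * (x j * T i j k l) := by
      intro j; ring
    simp only [this]
    rw [Finset.sum_add_distrib, ← Finset.mul_sum (a := β * U i * w k * z l), h2]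
    ring
  have s1 : ∑ i, ∑ j, ∑ k, ∑ l, T i j k l * (r * u i + α * x i) * v j * w k * z l =
      r * ∑ i, ∑ j, ∑ k, ∑ l, T i j k l * u i * v j * w k * z l := by
    simp only [Finset.mul_sum]
    have e : ∀ f : Fin N → Fin N → Fin N → Fin N → ℝ, ∑ i, ∑ j, ∑ k, ∑ l, f i j k l =
        ∑ j, ∑ k, ∑ l, ∑ i, f i j k l := by
      intro f
      rw [Finset.sum_comm]
      refine Finset.sum_congr rfl fun j _ => ?_
      rw [Finset.sum_comm]
      exact Finset.sum_congr rfl fun k _ => Finset.sum_comm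
    rw [e, e (fun i j k l => r * (T i j k l * u i * v j * w k * z l))]
    refine Finset.sum_congr rfl fun j _ => Finset.sum_congr rfl fun k _ =>
      Finset.sum_congr rfl fun l _ => ?_
    have : ∀ i, T i j k l * (r * u i + α * x i) * v j * w k * z l =
        r * (T i j k l * u i * v j * w k * z l) + (α * v j * w k * z l) * (x i * T i j k l) := by
      intro i; ring
    simp only [this]
    rw [Finset.sum_add_distrib, ← Finset.mul_sum (a := α * v j * w k * z l), h1]
    ring
  rw [s4 (fun i => r * u i + α * x i) (fun j => r * v j + β * x j) (fun k => r * w k + γ * x k),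
    s3 (fun i => r * u i + α * x i) (fun j => r * v j + β * x j),
    s2 (fun i => r * u i + α * x i), s1]
  ring

/-- solving the linear system of the Christoffel symbols -/
theorem solve {N : ℕ} (M : Matrix (Fin N) (Fin N) ℝ) (hM : IsUnit M.det) (L C : Fin N → ℝ)
    (h : ∀ l, L l = 2 * ∑ m, M l m * C m) (k : Fin N) : 1 / 2 * ∑ l, M⁻¹ k l * L l = C k := by
  have h1 : L = (2 : ℝ) • (M *ᵥ C) := by
    funext l
    rw [h l]
    simp [Matrix.mulVec, dotProduct]
  have h2 : M⁻¹ *ᵥ L = (2 : ℝ) • C := by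
    rw [h1, Matrix.mulVec_smul, Matrix.mulVec_mulVec, Matrix.nonsing_inv_mul M hM,
      Matrix.one_mulVec]
  have h3 : ∑ l, M⁻¹ k l * L l = 2 * C k := by
    have := congrFun h2 k
    simpa [Matrix.mulVec, dotProduct] using this
  rw [h3]; ring

theorem solve' {N : ℕ} (M : Matrix (Fin N) (Fin N) ℝ) (hM : IsUnit M.det) (L C : Fin N → ℝ)
    (h : ∀ k, C k = 1 / 2 * ∑ l, M⁻¹ k l * L l) (l : Fin N) : L l = 2 * ∑ m, M l m * C m := by
  have h1 : C = (1 / 2 : ℝ) • (M⁻¹ *ᵥ L) := by
    funext k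
    rw [h k]
    simp [Matrix.mulVec, dotProduct]
  have h2 : M *ᵥ C = (1 / 2 : ℝ) • L := by
    rw [h1, Matrix.mulVec_smul, Matrix.mulVec_mulVec, Matrix.mul_nonsing_inv M hM,
      Matrix.one_mulVec]
  have h3 := congrFun h2 l
  simp only [Matrix.mulVec, dotProduct, Pi.smul_apply, smul_eq_mul] at h3
  rw [h3]; ring

/-! ### The one form `p = d log ‖x‖` -/

/-- `x_i / ‖x‖²` -/
noncomputable def pp {n : ℕ} (i : Fin (n + 1)) (x : EE n) : ℝ := x i * (‖x‖ ^ 2)⁻¹

theorem pp_diff {n : ℕ} (j : Fin (n + 1)) {x : EE n} (hx : x ≠ 0) :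
    DifferentiableAt ℝ (pp j) x := by
  have h1 : DifferentiableAt ℝ (fun y : EE n => y j) x :=
    (EuclideanSpace.proj j : EE n →L[ℝ] ℝ).differentiableAt
  have h2 : DifferentiableAt ℝ (fun y : EE n => ‖y‖ ^ 2) x := differentiableAt_id.norm_sq ℝ
  have h3 : ‖x‖ ^ 2 ≠ 0 := pow_ne_zero 2 (norm_ne_zero_iff.mpr hx)
  exact h1.mul (h2.inv h3)

theorem pd_pp {n : ℕ} (i j : Fin (n + 1)) {x : EE n} (hx : x ≠ 0) :
    pd i (pp j) x = (if i = j then 1 else 0) / ‖x‖ ^ 2 - 2 * x i * x j / (‖x‖ ^ 2) ^ 2 := by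
  have h3 : ‖x‖ ^ 2 ≠ 0 := pow_ne_zero 2 (norm_ne_zero_iff.mpr hx)
  have h1 : HasFDerivAt (fun y : EE n => y j) (EuclideanSpace.proj j : EE n →L[ℝ] ℝ) x :=
    (EuclideanSpace.proj j : EE n →L[ℝ] ℝ).hasFDerivAt
  have h2 : HasFDerivAt (fun y : EE n => ‖y‖ ^ 2) ((2 : ℝ) • innerSL ℝ x) x := by
    have := (hasStrictFDerivAt_norm_sq x).hasFDerivAt
    simpa [two_smul] using this
  have h4 := h1.mul ((hasDerivAt_inv h3).comp_hasFDerivAt x h2)
  have h5 : HasFDerivAt (pp j) _ x := h4
  unfold pd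
  rw [h5.fderiv]
  have e1 : (EuclideanSpace.proj j : EE n →L[ℝ] ℝ) (EuclideanSpace.single i (1:ℝ)) =
      if i = j then 1 else 0 := by
    simp [eq_comm]
  have e2 : innerSL ℝ x (EuclideanSpace.single i (1:ℝ)) = x i := by
    simp [innerSL_apply_apply, EuclideanSpace.inner_single_right]
  simp only [FunLike.coe_add, FunLike.coe_smul, Pi.add_apply, Pi.smul_apply, smul_eq_mul, e1, e2,
    Function.comp_apply]
  field_simp
  ring

theorem cyl_apply {n : ℕ} (G : MF n) (x : EE n) (i j : Fin (n + 1)) :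
    cyl G x i j = (‖x‖ ^ 2)⁻¹ * G x i j := rfl

theorem cyl_scl {n : ℕ} (c : ℝ) (G : MF n) (x : EE n) (i j : Fin (n + 1)) :
    cyl (scl c G) x i j = c * cyl G x i j + (1 - c) * (pp i x * pp j x) := by
  simp only [cyl_apply, scl, rr, pp, Matrix.add_apply, Matrix.smul_apply, Matrix.sub_apply,
    Matrix.of_apply, smul_eq_mul, div_eq_mul_inv]
  ring

theorem cyl_diff {n : ℕ} {G : MF n} (hG : IsMetric G) (i j : Fin (n + 1)) {x : EE n}
    (hx : x ≠ 0) : DifferentiableAt ℝ (fun y => cyl G y i j) x := by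
  have h1 : DifferentiableAt ℝ (fun y => G y i j) x :=
    ((hG.sm i j).cd.contDiffAt (isOpen_compl_singleton.mem_nhds hx)).differentiableAt (by simp)
  have h2 : DifferentiableAt ℝ (fun y : EE n => ‖y‖ ^ 2) x := differentiableAt_id.norm_sq ℝ
  have h3 : ‖x‖ ^ 2 ≠ 0 := pow_ne_zero 2 (norm_ne_zero_iff.mpr hx)
  exact (h2.inv h3).mul h1

theorem pd_scl {n : ℕ} (c : ℝ) {G : MF n} (hG : IsMetric G) (a i j : Fin (n + 1)) {x : EE n}
    (hx : x ≠ 0) : pd a (fun y => cyl (scl c G) y i j) x =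
      c * pd a (fun y => cyl G y i j) x +
        (1 - c) * (pd a (pp i) x * pp j x + pp i x * pd a (pp j) x) := by
  have h1 := (cyl_diff hG i j hx).hasFDerivAt
  have h2 := (pp_diff i hx).hasFDerivAt
  have h3 := (pp_diff j hx).hasFDerivAt
  have h4 := (h1.const_mul c).add ((h2.mul h3).const_mul (1 - c))
  have e : (fun y => cyl (scl c G) y i j) =
      fun y => c * cyl G y i j + (1 - c) * (pp i y * pp j y) := by
    funext y; exact cyl_scl c G y i j
  unfold pd
  rw [e]
  have h5 : HasFDerivAt (fun y => c * cyl G y i j + (1 - c) * (pp i y * pp j y)) _ x := h4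
  rw [h5.fderiv]
  simp only [FunLike.coe_add, FunLike.coe_smul, Pi.add_apply, Pi.smul_apply, smul_eq_mul]
  ring

/-! ### Matrices -/

theorem G_symm {n : ℕ} {G : MF n} (hG : IsMetric G) (x : EE n) (i j : Fin (n + 1)) :
    G x i j = G x j i := by
  have := (hG.pos x).isHermitian
  have h2 := congrFun (congrFun this j) i
  simpa [Matrix.conjTranspose_apply] using h2

theorem rr_symm {n : ℕ} (x : EE n) (i j : Fin (n + 1)) : rr x i j = rr x j i := by
  simp only [rr, Matrix.of_apply]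
  ring

theorem norm_sq_sum {n : ℕ} (x : EE n) : ‖x‖ ^ 2 = ∑ i, x i ^ 2 := by
  rw [EuclideanSpace.norm_sq_eq]
  simp

theorem rr_rr {n : ℕ} {x : EE n} (hx : x ≠ 0) : rr x * rr x = rr x := by
  have h3 : ‖x‖ ^ 2 ≠ 0 := pow_ne_zero 2 (norm_ne_zero_iff.mpr hx)
  ext i j
  simp only [Matrix.mul_apply, rr, Matrix.of_apply]
  have : ∀ k, x i * x k / ‖x‖ ^ 2 * (x k * x j / ‖x‖ ^ 2) =
      (x i * x j / (‖x‖ ^ 2) ^ 2) * x k ^ 2 := by
    intro k; ring
  simp only [this]
  rw [← Finset.mul_sum, ← norm_sq_sum]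
  field_simp

theorem G_rr {n : ℕ} {G : MF n} (hG : IsMetric G) (x : EE n) : G x * rr x = rr x := by
  ext i j
  simp only [Matrix.mul_apply, rr, Matrix.of_apply]
  have : ∀ k, G x i k * (x k * x j / ‖x‖ ^ 2) = (x j / ‖x‖ ^ 2) * (G x i k * x k) := by
    intro k; ring
  simp only [this]
  rw [← Finset.mul_sum, hG.rad]
  ring

theorem rr_G {n : ℕ} {G : MF n} (hG : IsMetric G) (x : EE n) : rr x * G x = rr x := by
  ext i j
  have h := congrFun (congrFun (G_rr hG x) j) i
  rw [Matrix.mul_apply] at h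
  rw [Matrix.mul_apply, rr_symm x i j, ← h]
  refine Finset.sum_congr rfl fun k _ => ?_
  rw [rr_symm x i k, G_symm hG x k j]
  ring

theorem G_unit {n : ℕ} {G : MF n} (hG : IsMetric G) (x : EE n) : IsUnit (G x).det :=
  isUnit_iff_ne_zero.mpr (hG.pos x).det_pos.ne'

theorem Ginv_rr {n : ℕ} {G : MF n} (hG : IsMetric G) (x : EE n) : (G x)⁻¹ * rr x = rr x := by
  conv_lhs => rw [← G_rr hG x]
  rw [← Matrix.mul_assoc, Matrix.nonsing_inv_mul _ (G_unit hG x), Matrix.one_mul]

theorem rr_Ginv {n : ℕ} {G : MF n} (hG : IsMetric G) (x : EE n) : rr x * (G x)⁻¹ = rr x := by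
  conv_lhs => rw [← rr_G hG x]
  rw [Matrix.mul_assoc, Matrix.mul_nonsing_inv _ (G_unit hG x), Matrix.mul_one]

theorem scl_unit {n : ℕ} {c : ℝ} (hc : 0 < c) {G : MF n} (hG : IsMetric G) {x : EE n}
    (hx : x ≠ 0) : IsUnit (scl c G x).det := by
  apply Matrix.isUnit_det_of_right_inverse (B := rr x + c⁻¹ • ((G x)⁻¹ - rr x))
  have h1 := rr_rr hx
  have h2 := G_rr hG x
  have h3 := rr_G hG x
  have h4 := Ginv_rr hG x
  have h5 := rr_Ginv hG x
  have h6 := Matrix.mul_nonsing_inv _ (G_unit hG x)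
  unfold scl
  rw [Matrix.mul_add, Matrix.add_mul, Matrix.add_mul, h1, Matrix.smul_mul, Matrix.sub_mul, h2, h1,
    Matrix.mul_smul, Matrix.mul_sub, h5, h1, Matrix.smul_mul, Matrix.mul_smul, Matrix.mul_sub,
    Matrix.sub_mul, Matrix.sub_mul, h6, h5, h2, h1, smul_smul, mul_inv_cancel₀ hc.ne']
  simp

theorem cyl_unit {n : ℕ} (M : MF n) {x : EE n} (hx : x ≠ 0) (h : IsUnit (M x).det) :
    IsUnit (cyl M x).det := by
  have h3 : ‖x‖ ^ 2 ≠ 0 := pow_ne_zero 2 (norm_ne_zero_iff.mpr hx)
  unfold cyl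
  rw [Matrix.det_smul]
  exact (isUnit_iff_ne_zero.mpr (pow_ne_zero _ (inv_ne_zero h3))).mul h

theorem cyl_symm {n : ℕ} {G : MF n} (hG : IsMetric G) (x : EE n) (i j : Fin (n + 1)) :
    cyl G x i j = cyl G x j i := by
  rw [cyl_apply, cyl_apply, G_symm hG]

/-- `p` is parallel -/
theorem pp_par (chr : CHRn) (cyc : CYCn) {n : ℕ} {G : MF n} (hG : IsMetric G)
    (i j : Fin (n + 1)) {x : EE n} (hx : x ≠ 0) :
    pd i (pp j) x = ∑ m, Chr (cyl G) i j m x * pp m x := by
  have h3 : ‖x‖ ^ 2 ≠ 0 := pow_ne_zero 2 (norm_ne_zero_iff.mpr hx)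
  rw [pd_pp i j hx]
  have hc := (chr n G hG).2.2.2.1 i j x hx
  have e : ∀ m, Chr (cyl G) i j m x * pp m x =
      (‖x‖ ^ 2)⁻¹ * (x m * Chr G i j m x) - (‖x‖ ^ 2)⁻¹ * (‖x‖ ^ 2)⁻¹ *
        (x i * (if j = m then x m else 0) + x j * (if i = m then x m else 0) -
          G x i j * x m ^ 2) := by
    intro m
    rw [cyc n G hG i j m x hx]
    unfold pp
    split_ifs <;> field_simp <;> ring
  simp only [e]
  rw [Finset.sum_sub_distrib, ← Finset.mul_sum, ← Finset.mul_sum, hc, Finset.sum_sub_distrib,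
    Finset.sum_add_distrib, ← Finset.mul_sum, ← Finset.mul_sum, ← Finset.mul_sum, ← norm_sq_sum]
  simp only [Finset.sum_ite_eq, Finset.mem_univ, if_true]
  field_simp
  ring

/-- the Christoffel symbols do not change -/
theorem chr_eq (chr : CHRn) (cyc : CYCn) {n : ℕ} {c : ℝ} (hc : 0 < c) {G : MF n}
    (hG : IsMetric G) (i j k : Fin (n + 1)) {x : EE n} (hx : x ≠ 0) :
    Chr (cyl (scl c G)) i j k x = Chr (cyl G) i j k x := by
  set C : Fin (n + 1) → ℝ := fun m => Chr (cyl G) i j m x with hC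
  have hL := solve' (cyl G x) (cyl_unit G hx (G_unit hG x))
    (fun l => pd i (fun y => cyl G y j l) x + pd j (fun y => cyl G y i l) x -
      pd l (fun y => cyl G y i j) x) C (fun k => rfl)
  have hsymm : ∀ a b, pd a (pp b) x = pd b (pp a) x := by
    intro a b
    rw [pd_pp a b hx, pd_pp b a hx]
    have : (if a = b then (1:ℝ) else 0) = if b = a then 1 else 0 := by
      by_cases h : a = b
      · rw [if_pos h, if_pos h.symm]
      · rw [if_neg h, if_neg (fun h' => h h'.symm)]
    rw [this]; ring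
  have hpar := pp_par chr cyc hG i j hx
  have h := solve (cyl (scl c G) x) (cyl_unit _ hx (scl_unit hc hG hx))
    (fun l => pd i (fun y => cyl (scl c G) y j l) x + pd j (fun y => cyl (scl c G) y i l) x -
      pd l (fun y => cyl (scl c G) y i j) x) C (by
      intro l
      have f1 := pd_scl c hG i j l hx
      have f2 := pd_scl c hG j i l hx
      have f3 := pd_scl c hG l i j hx
      have e1 := hL l
      have e2 : ∑ m, cyl (scl c G) x l m * C m = c * ∑ m, cyl G x l m * C m +
          (1 - c) * pp l x * ∑ m, C m * pp m x := by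
        rw [Finset.mul_sum, Finset.mul_sum, ← Finset.sum_add_distrib]
        refine Finset.sum_congr rfl fun m _ => ?_
        rw [cyl_scl]; ring
      rw [← hpar] at e2
      have g1 := hsymm l i
      have g2 := hsymm l j
      have g3 := hsymm j i
      rw [e2]
      rw [g1, g2] at f3
      rw [g3] at f2
      linear_combination f1 + f2 - f3 + c * e1) k
  exact h

theorem pd_congr {n : ℕ} (i : Fin (n + 1)) {f g : EE n → ℝ} {x : EE n} (hx : x ≠ 0)
    (h : ∀ y, y ≠ 0 → f y = g y) : pd i f x = pd i g x := by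
  have : f =ᶠ[nhds x] g := by
    filter_upwards [isOpen_compl_singleton.mem_nhds hx] with y hy
    exact h y hy
  unfold pd
  rw [this.fderiv_eq]

theorem rup_eq (chr : CHRn) (cyc : CYCn) {n : ℕ} {c : ℝ} (hc : 0 < c) {G : MF n}
    (hG : IsMetric G) (i j k l : Fin (n + 1)) {x : EE n} (hx : x ≠ 0) :
    Rup (cyl (scl c G)) i j k l x = Rup (cyl G) i j k l x := by
  unfold Rup
  rw [pd_congr i hx (fun y hy => chr_eq chr cyc hc hG j k l hy),
    pd_congr j hx (fun y hy => chr_eq chr cyc hc hG i k l hy)]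
  congr 1
  refine Finset.sum_congr rfl fun m _ => ?_
  rw [chr_eq chr cyc hc hG j k m hx, chr_eq chr cyc hc hG i m l hx, chr_eq chr cyc hc hG i k m hx,
    chr_eq chr cyc hc hG j m l hx]

theorem sca2 (chr : CHRn) (cyc : CYCn) (rad : RAD0) : SCA2 := by
  intro n c G A θ hc hco x hx
  have hG := hco.met
  have h3 : ‖x‖ ^ 2 ≠ 0 := pow_ne_zero 2 (norm_ne_zero_iff.mpr hx)
  obtain ⟨r1, r2, r3, r4⟩ := rad n G hG x hx
  refine ⟨fun i j k => chr_eq chr cyc hc hG i j k hx, fun i j k l => rup_eq chr cyc hc hG i j k l hx,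
    ?_⟩
  intro a b d e
  -- the lowered curvature
  have hRm : ∀ i j k l, Rm (cyl (scl c G)) i j k l x = c * Rm (cyl G) i j k l x := by
    intro i j k l
    unfold Rm
    have e1 : ∀ m, Rup (cyl (scl c G)) i j k m x * cyl (scl c G) x m l =
        c * (Rup (cyl G) i j k m x * cyl G x m l) +
          ((1 - c) * pp l x * (‖x‖ ^ 2)⁻¹) * (x m * Rup (cyl G) i j k m x) := by
      intro m
      rw [rup_eq chr cyc hc hG i j k m hx, cyl_scl]
      unfold pp
      ring
    simp only [e1]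
    rw [Finset.sum_add_distrib, ← Finset.mul_sum, ← Finset.mul_sum, r4, mul_zero, add_zero]
  have k1 : ∀ j k l, ∑ i, x i * Rm (cyl G) i j k l x = 0 := by
    intro j k l
    unfold Rm
    simp only [Finset.mul_sum]
    rw [Finset.sum_comm]
    apply Finset.sum_eq_zero
    intro m _
    have : ∀ i, x i * (Rup (cyl G) i j k m x * cyl G x m l) =
        cyl G x m l * (x i * Rup (cyl G) i j k m x) := by intro i; ring
    simp only [this]
    rw [← Finset.mul_sum, r1, mul_zero]
  have k2 : ∀ i k l, ∑ j, x j * Rm (cyl G) i j k l x = 0 := by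
    intro i k l
    unfold Rm
    simp only [Finset.mul_sum]
    rw [Finset.sum_comm]
    apply Finset.sum_eq_zero
    intro m _
    have : ∀ j, x j * (Rup (cyl G) i j k m x * cyl G x m l) =
        cyl G x m l * (x j * Rup (cyl G) i j k m x) := by intro j; ring
    simp only [this]
    rw [← Finset.mul_sum, r2, mul_zero]
  have k3 : ∀ i j l, ∑ k, x k * Rm (cyl G) i j k l x = 0 := by
    intro i j l
    unfold Rm
    simp only [Finset.mul_sum]
    rw [Finset.sum_comm]
    apply Finset.sum_eq_zero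
    intro m _
    have : ∀ k, x k * (Rup (cyl G) i j k m x * cyl G x m l) =
        cyl G x m l * (x k * Rup (cyl G) i j k m x) := by intro k; ring
    simp only [this]
    rw [← Finset.mul_sum, r3, mul_zero]
  have k4 : ∀ i j k, ∑ l, x l * Rm (cyl G) i j k l x = 0 := by
    intro i j k
    unfold Rm
    simp only [Finset.mul_sum]
    rw [Finset.sum_comm]
    have : ∀ m l, x l * (Rup (cyl G) i j k m x * cyl G x m l) =
        Rup (cyl G) i j k m x * (‖x‖ ^ 2)⁻¹ * (G x m l * x l) := by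
      intro m l
      rw [cyl_apply]; ring
    simp only [this]
    simp only [← Finset.mul_sum]
    have e2 : ∀ m, Rup (cyl G) i j k m x * (‖x‖ ^ 2)⁻¹ * ∑ l, G x m l * x l =
        (‖x‖ ^ 2)⁻¹ * (x m * Rup (cyl G) i j k m x) := by
      intro m
      rw [hG.rad]; ring
    simp only [e2]
    rw [← Finset.mul_sum, r4, mul_zero]
  -- the frame
  set r : ℝ := 1 / Real.sqrt c with hr
  have hfr : ∀ (a i : Fin (n + 1)), (A x * Sr r x) a i =
      r * A x a i + ((1 - r) * (∑ t, A x a t * x t) / ‖x‖ ^ 2) * x i := by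
    intro a i
    have e1 : (A x * Sr r x) = r • A x + (1 - r) • (A x * rr x) := by
      unfold Sr
      rw [Matrix.mul_add, Matrix.mul_smul, Matrix.mul_sub, Matrix.mul_one]
      module
    rw [e1]
    simp only [Matrix.add_apply, Matrix.smul_apply, smul_eq_mul, Matrix.mul_apply, rr,
      Matrix.of_apply]
    have e2 : ∀ t, A x a t * (x t * x i / ‖x‖ ^ 2) = (x i / ‖x‖ ^ 2) * (A x a t * x t) := by
      intro t; ring
    simp only [e2]
    rw [← Finset.mul_sum]
    ring
  simp only [hfr, hRm]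
  have hT : ∀ (i j k l : Fin (n + 1)), c * Rm (cyl G) i j k l x =
      (fun i j k l => c * Rm (cyl G) i j k l x) i j k l := fun _ _ _ _ => rfl
  have main := Q_lin (fun i j k l => c * Rm (cyl G) i j k l x) (fun i => x i)
    (fun j k l => by
      have : ∀ i, x i * (c * Rm (cyl G) i j k l x) = c * (x i * Rm (cyl G) i j k l x) := by
        intro i; ring
      simp only [this]
      rw [← Finset.mul_sum, k1, mul_zero])
    (fun i k l => by
      have : ∀ j, x j * (c * Rm (cyl G) i j k l x) = c * (x j * Rm (cyl G) i j k l x) := by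
        intro j; ring
      simp only [this]
      rw [← Finset.mul_sum, k2, mul_zero])
    (fun i j l => by
      have : ∀ k, x k * (c * Rm (cyl G) i j k l x) = c * (x k * Rm (cyl G) i j k l x) := by
        intro k; ring
      simp only [this]
      rw [← Finset.mul_sum, k3, mul_zero])
    (fun i j k => by
      have : ∀ l, x l * (c * Rm (cyl G) i j k l x) = c * (x l * Rm (cyl G) i j k l x) := by
        intro l; ring
      simp only [this]
      rw [← Finset.mul_sum, k4, mul_zero])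
    r ((1 - r) * (∑ t, A x a t * x t) / ‖x‖ ^ 2) ((1 - r) * (∑ t, A x b t * x t) / ‖x‖ ^ 2)
    ((1 - r) * (∑ t, A x d t * x t) / ‖x‖ ^ 2) ((1 - r) * (∑ t, A x e t * x t) / ‖x‖ ^ 2)
    (fun i => A x a i) (fun i => A x b i) (fun i => A x d i) (fun i => A x e i)
  rw [main]
  have hr2 : r ^ 2 = 1 / c := by
    rw [hr, div_pow, one_pow, Real.sq_sqrt hc.le]
  have hr4 : r ^ 4 * c = 1 / c := by
    have : r ^ 4 = (r ^ 2) ^ 2 := by ring
    rw [this, hr2]
    field_simp
  rw [← hr4]
  simp only [Finset.mul_sum]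
  refine Finset.sum_congr rfl fun i _ => Finset.sum_congr rfl fun j _ =>
    Finset.sum_congr rfl fun k _ => Finset.sum_congr rfl fun l _ => ?_
  ring

end Pool.Agent.Helper58.RFn
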