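import Pool.Agent.Helper73.RFn.GoalsG

/-!
PACKET RFn-EXD: the limit of a flow with bounded word derivatives (general dimension).
-/

set_option autoImplicit false

open Finset Filter Topology Pool.Agent.Helper47.RFn Pool.Agent.Helper73.RFn

namespace Pool.Agent.Helper58.RFn.EXD

variable {n : ℕ}

theorem sm_Ew (k1 : Goal_C1) {f : EE n → ℝ} (hf : Sm f) (w : List (Fin (n + 1))) : Sm (Ew w f) := by
  induction w with
  | nil => exact hf
  | cons i w ih => exact (k1 n).2.2.2.2.2.2.2.2.1 _ i ih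

theorem sm_E (k1 : Goal_C1) {f : EE n → ℝ} (hf : Sm f) (i : Fin (n + 1)) : Sm (ed i f) :=
  sm_Ew k1 hf [i]

theorem Ew_append (w : List (Fin (n + 1))) (i : Fin (n + 1)) (f : EE n → ℝ) :
    Ew w (ed i f) = Ew (w ++ [i]) f := by
  induction w with
  | nil => rfl
  | cons j w ih =>
    change ed j (Ew w _) = ed j (Ew (w ++ [i]) f)
    rw [ih]

theorem Ew_add (k1 : Goal_C1) (k2 : Goal_C2) {f h : EE n → ℝ} (hf : Sm f) (hh : Sm h)
    (w : List (Fin (n + 1))) :
    Ew w (fun x => f x + h x) = fun x => Ew w f x + Ew w h x := by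
  induction w with
  | nil => rfl
  | cons i w ih =>
    change ed i (Ew w _) = _
    rw [ih]
    funext x
    exact (k2 n).2.1 i _ _ x (sm_Ew k1 hf w) (sm_Ew k1 hh w)

theorem Ew_neg (k2 : Goal_C2) (f : EE n → ℝ) (w : List (Fin (n + 1))) :
    Ew w (fun x => - f x) = fun x => - Ew w f x := by
  induction w with
  | nil => rfl
  | cons i w ih =>
    change ed i (Ew w _) = _
    rw [ih]
    funext x
    exact (k2 n).2.2.2.1 i _ x

theorem Ew_sum (k1 : Goal_C1) (k2 : Goal_C2) {ι : Type} (s : Finset ι) (f : ι → EE n → ℝ)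
    (hf : ∀ a ∈ s, Sm (f a)) (w : List (Fin (n + 1))) :
    Ew w (fun x => ∑ a ∈ s, f a x) = fun x => ∑ a ∈ s, Ew w (f a) x := by
  induction w with
  | nil => rfl
  | cons i w ih =>
    change ed i (Ew w _) = _
    rw [ih]
    funext x
    exact (k2 n).2.2.2.2.2.2.1 ι s _ i x fun a ha => sm_Ew k1 (hf a ha) w

/-- all word derivatives are bounded -/
def BB (T : ℝ) (u : ℝ → EE n → ℝ) : Prop :=
  ∀ w : List (Fin (n + 1)), ∃ C, ∀ t, 0 < t → t < T → ∀ x, x ≠ 0 → |Ew w (u t) x| ≤ C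

theorem BB.der {T : ℝ} {u : ℝ → EE n → ℝ} (h : BB T u) (i : Fin (n + 1)) :
    BB T (fun t => ed i (u t)) := by
  intro w
  obtain ⟨C, hC⟩ := h (w ++ [i])
  refine ⟨C, fun t h0 h1 x hx => ?_⟩
  change |Ew w (ed i (u t)) x| ≤ C
  rw [Ew_append]
  exact hC t h0 h1 x hx

theorem BB.neg (k2 : Goal_C2) {T : ℝ} {u : ℝ → EE n → ℝ} (hu : BB T u) :
    BB T (fun t x => - u t x) := by
  intro w
  obtain ⟨C, hC⟩ := hu w
  refine ⟨C, fun t h0 h1 x hx => ?_⟩
  rw [Ew_neg k2, abs_neg]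
  exact hC t h0 h1 x hx

theorem BB.mul_aux (k1 : Goal_C1) (k2 : Goal_C2) {T : ℝ} (m : ℕ) : ∀ u v : ℝ → EE n → ℝ,
    BB T u → BB T v →
    (∀ t, 0 < t → t < T → Sm (u t)) → (∀ t, 0 < t → t < T → Sm (v t)) →
    ∀ w : List (Fin (n + 1)), w.length = m → ∃ C, ∀ t, 0 < t → t < T → ∀ x, x ≠ 0 →
      |Ew w (fun x => u t x * v t x) x| ≤ C := by
  induction m with
  | zero =>
    intro u v hu hv su sv w hw
    obtain rfl := List.length_eq_zero_iff.1 hw
    obtain ⟨C, hC⟩ := hu []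
    obtain ⟨D, hD⟩ := hv []
    refine ⟨|C| * |D|, fun t h0 h1 x hx => ?_⟩
    change |u t x * v t x| ≤ _
    rw [abs_mul]
    exact mul_le_mul ((hC t h0 h1 x hx).trans (le_abs_self C))
      ((hD t h0 h1 x hx).trans (le_abs_self D)) (abs_nonneg _) (abs_nonneg _)
  | succ m ih =>
    intro u v hu hv su sv w hw
    obtain ⟨w', i, rfl⟩ : ∃ (w' : List (Fin (n + 1))) (i : Fin (n + 1)), w = w' ++ [i] := by
      rcases List.eq_nil_or_concat w with h | ⟨w', i, h⟩
      · rw [h] at hw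
        simp at hw
      · exact ⟨w', i, by simpa using h⟩
    have hl : w'.length = m := by simpa using hw
    obtain ⟨C, hC⟩ := ih (fun t => ed i (u t)) v (hu.der i) hv
      (fun t h0 h1 => sm_E k1 (su t h0 h1) i) sv w' hl
    obtain ⟨D, hD⟩ := ih u (fun t => ed i (v t)) hu (hv.der i) su
      (fun t h0 h1 => sm_E k1 (sv t h0 h1) i) w' hl
    refine ⟨C + D, fun t h0 h1 x hx => ?_⟩
    rw [← Ew_append]
    have e : ed i (fun x => u t x * v t x) =
        fun x => ed i (u t) x * v t x + u t x * ed i (v t) x := by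
      funext y
      exact (k2 n).2.2.2.2.1 i _ _ y (su t h0 h1) (sv t h0 h1)
    rw [e, Ew_add k1 k2 ((k1 n).2.2.2.1 _ _ (sm_E k1 (su t h0 h1) i) (sv t h0 h1))
      ((k1 n).2.2.2.1 _ _ (su t h0 h1) (sm_E k1 (sv t h0 h1) i))]
    exact (abs_add_le _ _).trans (add_le_add (hC t h0 h1 x hx) (hD t h0 h1 x hx))

theorem BB.mul (k1 : Goal_C1) (k2 : Goal_C2) {T : ℝ} {u v : ℝ → EE n → ℝ} (hu : BB T u)
    (hv : BB T v) (su : ∀ t, 0 < t → t < T → Sm (u t)) (sv : ∀ t, 0 < t → t < T → Sm (v t)) :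
    BB T (fun t x => u t x * v t x) :=
  fun w => BB.mul_aux k1 k2 w.length u v hu hv su sv w rfl

theorem BB.sum (k1 : Goal_C1) (k2 : Goal_C2) {T : ℝ} {f : Fin (n + 1) → ℝ → EE n → ℝ}
    (hf : ∀ b, BB T (f b)) (sf : ∀ b t, 0 < t → t < T → Sm (f b t)) :
    BB T (fun t x => ∑ b, f b t x) := by
  intro w
  choose C hC using fun b => hf b w
  refine ⟨∑ b, C b, fun t h0 h1 x hx => ?_⟩
  rw [Ew_sum k1 k2 Finset.univ (fun b => f b t) (fun b _ => sf b t h0 h1) w]
  exact (Finset.abs_sum_le_sum_abs _ _).trans (Finset.sum_le_sum fun b _ => hC b t h0 h1 x hx)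

theorem BB_of_BW {T : ℝ} {u : ℝ → EE n → ℝ} (h : ∀ m, BW T m u) : BB T u :=
  fun w => h w.length w le_rfl

/-! ### curvature of smooth families of frames -/

theorem fam_Fdc (k8 : Goal_C8) {I : Set ℝ} {A : ℝ → MF n}
    (hA : ∀ a i, SmFam I (fun t x => A t x a i)) (a : Fin (n + 1)) {f : ℝ → EE n → ℝ}
    (hf : SmFam I f) : SmFam I (fun t => Fdc (A t) a (f t)) := by
  have h := (k8 n I).2.2.2.2.2.2.2.1 (Fin (n + 1)) Finset.univ
    (fun i t x => A t x a i * ed i (f t) x) fun i _ =>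
      (k8 n I).2.2.2.1 _ _ (hA a i) ((k8 n I).2.2.2.2.2.1 f i hf)
  exact h

theorem fam_nfc (k8 : Goal_C8) {I : Set ℝ} {A : ℝ → MF n}
    (hA : ∀ a i, SmFam I (fun t x => A t x a i)) (a : Fin (n + 1)) :
    SmFam I (fun t => nfc (A t) a) := by
  have h := (k8 n I).2.2.2.2.2.2.2.1 (Fin (n + 1)) Finset.univ
    (fun i t x => A t x a i * nn i x) fun i _ =>
      (k8 n I).2.2.2.1 _ _ (hA a i) ((k8 n I).2.2.2.2.2.2.2.2.1 i)
  exact h

theorem fam_Cc (k8 : Goal_C8) {I : Set ℝ} {A θ : ℝ → MF n}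
    (hA : ∀ a i, SmFam I (fun t x => A t x a i)) (ht : ∀ i a, SmFam I (fun t x => θ t x i a))
    (a b c : Fin (n + 1)) : SmFam I (fun t => Cc (A t) (θ t) a b c) := by
  obtain ⟨hc, hadd, hsub, hmul, hneg, hed, -, hsum, hnn, -⟩ := k8 n I
  have h1 := hsum (Fin (n + 1)) Finset.univ
    (fun j t x => (Fdc (A t) a (fun y => A t y b j) x - Fdc (A t) b (fun y => A t y a j) x)
      * θ t x j c) fun j _ =>
      hmul _ _ (hsub _ _ (fam_Fdc k8 hA a (hA b j)) (fam_Fdc k8 hA b (hA a j))) (ht j c)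
  have h2 := hsub _ _
    (hmul _ _ (fam_nfc k8 hA a) (hc (fun _ => if b = c then 1 else 0) continuousOn_const))
    (hmul _ _ (fam_nfc k8 hA b) (hc (fun _ => if a = c then 1 else 0) continuousOn_const))
  exact hadd _ _ h1 h2

theorem fam_Gamc (k8 : Goal_C8) {I : Set ℝ} {A θ : ℝ → MF n}
    (hA : ∀ a i, SmFam I (fun t x => A t x a i)) (ht : ∀ i a, SmFam I (fun t x => θ t x i a))
    (a b c : Fin (n + 1)) : SmFam I (fun t => Gamc (A t) (θ t) a b c) := by
  obtain ⟨hc, hadd, hsub, hmul, hneg, hed, -, hsum, hnn, -⟩ := k8 n I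
  have h := hmul _ _ (hc (fun _ => 1 / 2) continuousOn_const)
    (hadd _ _ (hsub _ _ (fam_Cc k8 hA ht a b c) (fam_Cc k8 hA ht b c a)) (fam_Cc k8 hA ht c a b))
  exact h

theorem fam_Rf (k8 : Goal_C8) {I : Set ℝ} {A θ : ℝ → MF n}
    (hA : ∀ a i, SmFam I (fun t x => A t x a i)) (ht : ∀ i a, SmFam I (fun t x => θ t x i a))
    (a b c d : Fin (n + 1)) : SmFam I (fun t => Rf (A t) (θ t) a b c d) := by
  obtain ⟨hc, hadd, hsub, hmul, hneg, hed, -, hsum, hnn, -⟩ := k8 n I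
  have hG := fun a b c => fam_Gamc k8 hA ht a b c
  have h1 := hsum (Fin (n + 1)) Finset.univ
    (fun f t x => Gamc (A t) (θ t) b c f x * Gamc (A t) (θ t) a f d x
      - Gamc (A t) (θ t) a c f x * Gamc (A t) (θ t) b f d x) fun f _ =>
      hsub _ _ (hmul _ _ (hG b c f) (hG a f d)) (hmul _ _ (hG a c f) (hG b f d))
  have h2 := hsum (Fin (n + 1)) Finset.univ
    (fun f t x => Cc (A t) (θ t) a b f x * Gamc (A t) (θ t) f c d x) fun f _ =>
      hmul _ _ (fam_Cc k8 hA ht a b f) (hG f c d)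
  exact hneg _ (hsub _ _ (hadd _ _ (hsub _ _ (fam_Fdc k8 hA a (hG b c d))
    (fam_Fdc k8 hA b (hG a c d))) h1) h2)

theorem fam_Rcf (k8 : Goal_C8) {I : Set ℝ} {A θ : ℝ → MF n}
    (hA : ∀ a i, SmFam I (fun t x => A t x a i)) (ht : ∀ i a, SmFam I (fun t x => θ t x i a))
    (a c : Fin (n + 1)) : SmFam I (fun t => Rcf (A t) (θ t) a c) := by
  have h := (k8 n I).2.2.2.2.2.2.2.1 (Fin (n + 1)) Finset.univ
    (fun b t x => Rf (A t) (θ t) a b c b x) fun b _ => fam_Rf k8 hA ht a b c b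
  exact h

/-! ### the limit -/

theorem lim (k1 : Goal_C1) (k11 : Goal_C11) {T : ℝ} (hT : 0 < T) {f f' : ℝ → EE n → ℝ}
    (h : SmFam1 (Set.Ico 0 T) f f') (hb : BB T f') (c : ℝ) :
    ∃ u : EE n → ℝ, Sm u ∧ u 0 = c ∧ ∀ w, ∃ C, 0 ≤ C ∧
      ∀ t, 0 < t → t < T → ∀ x, x ≠ 0 → |Ew w (f t) x - Ew w u x| ≤ C * (T - t) := by
  have key : ∀ w, ∃ C, 0 ≤ C ∧ ∀ x : EE n, x ≠ 0 → ∃ L : ℝ, ∀ t, 0 < t → t < T →
      |Ew w (f t) x - L| ≤ C * (T - t) := by
    intro w
    obtain ⟨C0, hC0⟩ := hb w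
    refine ⟨|C0|, abs_nonneg _, fun x hx => ?_⟩
    have hl : LipschitzOnWith (Real.nnabs C0) (fun t => Ew w (f t) x) (Set.Ioo 0 T) := by
      refine (convex_Ioo 0 T).lipschitzOnWith_of_nnnorm_hasDerivWithin_le
        (f' := fun t => Ew w (f' t) x) ?_ ?_
      · intro t ht
        exact (h.der w x hx t ⟨ht.1.le, ht.2⟩).mono Set.Ioo_subset_Ico_self
      · intro t ht
        rw [← NNReal.coe_le_coe, coe_nnnorm, Real.norm_eq_abs]
        exact (hC0 t ht.1 ht.2 x hx).trans (le_abs_self C0)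
    obtain ⟨g, hg, hgf⟩ := hl.extend_real
    refine ⟨g T, fun t h0 h1 => ?_⟩
    have h2 := hg.dist_le_mul t T
    have h3 : Ew w (f t) x = g t := hgf ⟨h0, h1⟩
    rw [Real.dist_eq, Real.dist_eq] at h2
    rw [h3]
    refine h2.trans (le_of_eq ?_)
    rw [abs_sub_comm t T, abs_of_pos (sub_pos.2 h1)]
    rfl
  choose C hC0 L hL using key
  classical
  let F : List (Fin (n + 1)) → EE n → ℝ := fun w x => if hx : x = 0 then c else L w x hx
  have hFne : ∀ w x (hx : x ≠ 0), F w x = L w x hx := fun w x hx => dif_neg hx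
  have hP : ∀ w t, 0 < t → t < T → ∀ x, x ≠ 0 → |Ew w (f t) x - F w x| ≤ C w * (T - t) := by
    intro w t h0 h1 x hx
    rw [hFne w x hx]
    exact hL w x hx t h0 h1
  have hlimT : Tendsto (fun t : ℝ => T - t) (𝓝[<] T) (𝓝 0) := by
    have h1 : Tendsto (fun t : ℝ => T - t) (𝓝 T) (𝓝 (T - T)) :=
      (continuous_const.sub continuous_id).tendsto T
    rw [sub_self] at h1
    exact h1.mono_left nhdsWithin_le_nhds
  have hIoo : Set.Ioo 0 T ∈ 𝓝[<] T := Ioo_mem_nhdsLT hT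
  have hU : ∀ w, TendstoUniformlyOn (fun t => Ew w (f t)) (F w) (𝓝[<] T) {0}ᶜ := by
    intro w
    rw [Metric.tendstoUniformlyOn_iff]
    intro ε hε
    have h1 : Tendsto (fun t : ℝ => C w * (T - t)) (𝓝[<] T) (𝓝 0) := by
      simpa using hlimT.const_mul (C w)
    filter_upwards [hIoo, h1.eventually (gt_mem_nhds hε)] with t ht h2 x hx
    rw [Real.dist_eq, abs_sub_comm]
    exact (hP w t ht.1 ht.2 x hx).trans_lt h2
  have hTd : ∀ w x, x ≠ 0 → Tendsto (fun t => Ew w (f t) x) (𝓝[<] T) (𝓝 (F w x)) :=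
    fun w x hx => (hU w).tendsto_at hx
  have hsm : ∀ t ∈ Set.Ioo 0 T, Sm (f t) := fun t ht => h.fam.sm t ⟨ht.1.le, ht.2⟩
  have hnb : (𝓝[<] T).NeBot := inferInstance
  have hhom : ∀ w, Hom0 (F w) := by
    intro w r x hr
    by_cases hx : x = 0
    · rw [hx, smul_zero]
    · have hrx : r • x ≠ 0 := smul_ne_zero hr.ne' hx
      refine tendsto_nhds_unique (hTd w _ hrx) ((hTd w x hx).congr' ?_)
      filter_upwards [hIoo] with t ht
      exact ((sm_Ew k1 (hsm t ht) w).hom r x hr).symm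
  have hcont : ∀ w, ContinuousOn (F w) {0}ᶜ := by
    intro w
    refine (hU w).continuousOn ?_
    refine Eventually.frequently ?_
    filter_upwards [hIoo] with t ht
    exact (sm_Ew k1 (hsm t ht) w).cd.continuousOn
  have hder : ∀ w i x, x ≠ 0 →
      HasDerivAt (fun s : ℝ => F w (x + s • (‖x‖ • EuclideanSpace.single i (1:ℝ))))
        (F (i :: w) x) 0 := by
    intro w i x hx
    have hxn : 0 < ‖x‖ := norm_pos_iff.2 hx
    have hvn : ‖(‖x‖ • EuclideanSpace.single i (1:ℝ) : EE n)‖ = ‖x‖ := by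
      rw [norm_smul, norm_norm, EuclideanSpace.norm_single, norm_one, mul_one]
    have hlow : ∀ s ∈ Set.Ioo (-(1 / 2) : ℝ) (1 / 2),
        ‖x‖ / 2 ≤ ‖x + s • (‖x‖ • EuclideanSpace.single i (1:ℝ) : EE n)‖ := by
      intro s hs
      have h1 : ‖x‖ - ‖s • (‖x‖ • EuclideanSpace.single i (1:ℝ) : EE n)‖ ≤
          ‖x + s • (‖x‖ • EuclideanSpace.single i (1:ℝ) : EE n)‖ := by
        have h2 := norm_sub_norm_le x (-(s • (‖x‖ • EuclideanSpace.single i (1:ℝ) : EE n)))
        rwa [norm_neg, sub_neg_eq_add] at h2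
      have h3 : ‖s • (‖x‖ • EuclideanSpace.single i (1:ℝ) : EE n)‖ = |s| * ‖x‖ := by
        rw [norm_smul, hvn, Real.norm_eq_abs]
      have h4 : |s| ≤ 1 / 2 := abs_le.2 ⟨hs.1.le, hs.2.le⟩
      rw [h3] at h1
      nlinarith
    have hne : ∀ s ∈ Set.Ioo (-(1 / 2) : ℝ) (1 / 2),
        x + s • (‖x‖ • EuclideanSpace.single i (1:ℝ) : EE n) ≠ 0 := by
      intro s hs h0
      have h1 := hlow s hs
      rw [h0, norm_zero] at h1
      linarith
    have h5 := hasDerivAt_of_tendstoUniformlyOn (l := 𝓝[<] T)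
      (s := Set.Ioo (-(1 / 2) : ℝ) (1 / 2)) (x := (0:ℝ))
      (f := fun t s => Ew w (f t) (x + s • (‖x‖ • EuclideanSpace.single i (1:ℝ))))
      (f' := fun t s => ‖x‖ / ‖x + s • (‖x‖ • EuclideanSpace.single i (1:ℝ) : EE n)‖ *
        Ew (i :: w) (f t) (x + s • (‖x‖ • EuclideanSpace.single i (1:ℝ))))
      (g := fun s => F w (x + s • (‖x‖ • EuclideanSpace.single i (1:ℝ))))
      (g' := fun s => ‖x‖ / ‖x + s • (‖x‖ • EuclideanSpace.single i (1:ℝ) : EE n)‖ *
        F (i :: w) (x + s • (‖x‖ • EuclideanSpace.single i (1:ℝ)))) isOpen_Ioo ?_ ?_ ?_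
      ⟨by norm_num, by norm_num⟩
    · simpa [hxn.ne'] using h5
    · rw [Metric.tendstoUniformlyOn_iff]
      intro ε hε
      have h6 := Metric.tendstoUniformlyOn_iff.1 (hU (i :: w)) (ε / 2) (half_pos hε)
      filter_upwards [h6] with t ht s hs
      have h7 := ht _ (hne s hs)
      have h8 := hlow s hs
      have h9 : 0 < ‖x + s • (‖x‖ • EuclideanSpace.single i (1:ℝ) : EE n)‖ := by linarith
      have h10 : ‖x‖ / ‖x + s • (‖x‖ • EuclideanSpace.single i (1:ℝ) : EE n)‖ ≤ 2 := by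
        rw [div_le_iff₀ h9]
        linarith
      have h11 : 0 ≤ ‖x‖ / ‖x + s • (‖x‖ • EuclideanSpace.single i (1:ℝ) : EE n)‖ := by
        positivity
      rw [Real.dist_eq] at h7
      rw [Real.dist_eq, ← mul_sub, abs_mul, abs_of_nonneg h11]
      have h12 := abs_nonneg (F (i :: w) (x + s • (‖x‖ • EuclideanSpace.single i (1:ℝ))) -
        Ew (i :: w) (f t) (x + s • (‖x‖ • EuclideanSpace.single i (1:ℝ))))
      nlinarith
    · filter_upwards [hIoo] with t ht s hs
      have hs' := sm_Ew k1 (hsm t ht) w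
      have hz := hne s hs
      have hd : DifferentiableAt ℝ (Ew w (f t))
          (x + s • (‖x‖ • EuclideanSpace.single i (1:ℝ))) :=
        (hs'.cd.contDiffAt (isOpen_compl_singleton.mem_nhds hz)).differentiableAt (by simp)
      have h7 : HasDerivAt (fun s : ℝ => x + s • (‖x‖ • EuclideanSpace.single i (1:ℝ) : EE n))
          (‖x‖ • EuclideanSpace.single i (1:ℝ)) s := by
        have h8 := ((hasDerivAt_id s).smul_const
          (‖x‖ • EuclideanSpace.single i (1:ℝ) : EE n)).const_add x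
        simpa using h8
      have h9 := hd.hasFDerivAt.comp_hasDerivAt s h7
      have h10 : fderiv ℝ (Ew w (f t)) (x + s • (‖x‖ • EuclideanSpace.single i (1:ℝ)))
          (‖x‖ • EuclideanSpace.single i (1:ℝ)) =
          ‖x‖ / ‖x + s • (‖x‖ • EuclideanSpace.single i (1:ℝ) : EE n)‖ *
            Ew (i :: w) (f t) (x + s • (‖x‖ • EuclideanSpace.single i (1:ℝ))) := by
        have h11 : ‖x + s • (‖x‖ • EuclideanSpace.single i (1:ℝ) : EE n)‖ ≠ 0 :=
          norm_ne_zero_iff.2 hz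
        rw [map_smul, smul_eq_mul]
        change _ = _ * (‖_‖ * fderiv ℝ (Ew w (f t)) _ _)
        rw [← mul_assoc, div_mul_cancel₀ _ h11]
      rw [h10] at h9
      exact h9
    · intro s hs
      exact hTd w _ (hne s hs)
  obtain ⟨hs, he⟩ := k11 n F hhom hcont hder
  refine ⟨F [], hs, dif_pos rfl, fun w => ⟨C w, hC0 w, fun t h0 h1 x hx => ?_⟩⟩
  rw [he w x hx]
  exact hP w t h0 h1 x hx

open Classical in
theorem fam (k1 : Goal_C1) {T : ℝ} (hT : 0 < T) {f : ℝ → EE n → ℝ}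
    (h : SmFam (Set.Ico 0 T) f) {u : EE n → ℝ}
    (hu : Sm u) (hlim : ∀ w, ∃ C, 0 ≤ C ∧
      ∀ t, 0 < t → t < T → ∀ x, x ≠ 0 → |Ew w (f t) x - Ew w u x| ≤ C * (T - t)) :
    SmFam (Set.Icc 0 T) (fun t => if t < T then f t else u) := by
  constructor
  · intro t ht
    by_cases h1 : t < T
    · rw [if_pos h1]
      exact h.sm t ⟨ht.1, h1⟩
    · rw [if_neg h1]
      exact hu
  · rintro w ⟨t, x⟩ ⟨ht, hx⟩
    have ht : t ∈ Set.Icc 0 T := ht
    have hx : x ≠ 0 := hx
    rcases ht.2.lt_or_eq with h1 | h1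
    · have h2 := h.cont w (t, x) ⟨⟨ht.1, h1⟩, hx⟩
      have hopen : {p : ℝ × EE n | p.1 < T} ∈ 𝓝 ((t, x) : ℝ × EE n) :=
        (isOpen_lt continuous_fst continuous_const).mem_nhds h1
      have h3 : ContinuousWithinAt
          (fun p : ℝ × EE n => Ew w (if p.1 < T then f p.1 else u) p.2)
          (Set.Ico 0 T ×ˢ {0}ᶜ) (t, x) := by
        refine h2.congr ?_ ?_
        · rintro ⟨s, y⟩ ⟨hs, hy⟩
          have hs : s ∈ Set.Ico 0 T := hs
          simp only [hs.2, if_true]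
        · simp only [h1, if_true]
      refine h3.mono_of_mem_nhdsWithin ?_
      rw [mem_nhdsWithin_iff_exists_mem_nhds_inter]
      refine ⟨_, hopen, ?_⟩
      rintro ⟨s, y⟩ ⟨hs1, hs2, hy⟩
      exact ⟨⟨hs2.1, hs1⟩, hy⟩
    · subst h1
      obtain ⟨C, hC, hl⟩ := hlim w
      have hcu : ContinuousAt (Ew w u) x :=
        (sm_Ew k1 hu w).cd.continuousOn.continuousAt (isOpen_compl_singleton.mem_nhds hx)
      have h2 : Tendsto (fun p : ℝ × EE n => Ew w u p.2) (𝓝[Set.Icc 0 t ×ˢ {0}ᶜ] (t, x))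
          (𝓝 (Ew w u x)) := by
        have h3 : Tendsto (fun p : ℝ × EE n => Ew w u p.2) (𝓝 (t, x)) (𝓝 (Ew w u x)) :=
          Tendsto.comp (f := fun p : ℝ × EE n => p.2) (g := Ew w u) hcu
            (continuous_snd.tendsto ((t, x) : ℝ × EE n))
        exact h3.mono_left nhdsWithin_le_nhds
      have h4 : Tendsto (fun p : ℝ × EE n => Ew w (if p.1 < t then f p.1 else u) p.2 - Ew w u p.2)
          (𝓝[Set.Icc 0 t ×ˢ {0}ᶜ] (t, x)) (𝓝 0) := by
        refine squeeze_zero_norm' (a := fun p : ℝ × EE n => C * (t - p.1)) ?_ ?_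
        · have hpos : {p : ℝ × EE n | 0 < p.1} ∈ 𝓝 ((t, x) : ℝ × EE n) :=
            (isOpen_lt continuous_const continuous_fst).mem_nhds hT
          filter_upwards [self_mem_nhdsWithin, mem_nhdsWithin_of_mem_nhds hpos] with p hp hp0
          obtain ⟨hp1, hp2⟩ := hp
          have hp2 : p.2 ≠ 0 := hp2
          rw [Real.norm_eq_abs]
          by_cases hpt : p.1 < t
          · simp only [hpt, if_true]
            exact hl p.1 hp0 hpt p.2 hp2
          · simp only [hpt, if_false, sub_self, abs_zero]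
            exact mul_nonneg hC (sub_nonneg.2 hp1.2)
        · have h5 : Tendsto (fun p : ℝ × EE n => C * (t - p.1)) (𝓝 (t, x)) (𝓝 (C * (t - t))) :=
            (by fun_prop : Continuous fun p : ℝ × EE n => C * (t - p.1)).tendsto (t, x)
          rw [sub_self, mul_zero] at h5
          exact h5.mono_left nhdsWithin_le_nhds
      have h6 := h4.add h2
      simp only [sub_add_cancel, zero_add] at h6
      unfold ContinuousWithinAt
      simpa using h6

theorem der {T : ℝ} (hT : 0 < T) {f f' g g' : ℝ → EE n → ℝ} (h : SmFam1 (Set.Ico 0 T) f f')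
    (hg : SmFam (Set.Icc 0 T) g) (hg' : SmFam (Set.Icc 0 T) g')
    (e : ∀ t, t < T → g t = f t) (e' : ∀ t, t < T → g' t = f' t) :
    SmFam1 (Set.Icc 0 T) g g' := by
  refine ⟨hg, hg', ?_⟩
  intro w x hx t ht
  rcases ht.2.lt_or_eq with h1 | h1
  · have h2 := h.der w x hx t ⟨ht.1, h1⟩
    have h3 : HasDerivWithinAt (fun s => Ew w (g s) x) (Ew w (g' t) x) (Set.Ico 0 T) t := by
      rw [e' t h1]
      refine h2.congr (fun s hs => by rw [e s hs.2]) (by rw [e t h1])
    refine h3.mono_of_mem_nhdsWithin ?_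
    rw [mem_nhdsWithin_iff_exists_mem_nhds_inter]
    exact ⟨Set.Iio T, isOpen_Iio.mem_nhds h1, fun s hs => ⟨hs.2.1, hs.1⟩⟩
  · subst h1
    have hcx : ∀ k : ℝ → EE n → ℝ, SmFam (Set.Icc 0 t) k →
        ContinuousWithinAt (fun s => Ew w (k s) x) (Set.Icc 0 t) t := by
      intro k hk
      have h2 := hk.cont w (t, x) ⟨ht, hx⟩
      have h3 : ContinuousWithinAt (fun s : ℝ => (s, x)) (Set.Icc 0 t) t :=
        (by fun_prop : Continuous fun s : ℝ => (s, x)).continuousWithinAt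
      have h4 : Tendsto (fun s : ℝ => (s, x)) (𝓝[Set.Icc 0 t] t)
          (𝓝[Set.Icc 0 t ×ˢ {0}ᶜ] ((t, x) : ℝ × EE n)) :=
        tendsto_nhdsWithin_iff.2 ⟨h3, eventually_nhdsWithin_of_forall fun s hs => ⟨hs, hx⟩⟩
      have h5 : Tendsto (fun p : ℝ × EE n => Ew w (k p.1) p.2)
          (𝓝[Set.Icc 0 t ×ˢ {0}ᶜ] ((t, x) : ℝ × EE n)) (𝓝 (Ew w (k t) x)) := h2
      exact h5.comp h4
    have hd : ∀ s ∈ Set.Ioo 0 t, HasDerivAt (fun s => Ew w (g s) x) (Ew w (g' s) x) s := by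
      intro s hs
      have h2 := (h.der w x hx s ⟨hs.1.le, hs.2⟩).hasDerivAt (Ico_mem_nhds hs.1 hs.2)
      rw [e' s hs.2]
      refine h2.congr_of_eventuallyEq ?_
      filter_upwards [isOpen_Iio.mem_nhds hs.2] with r hr
      rw [e r hr]
    refine (hasDerivWithinAt_Iic_of_tendsto_deriv (s := Set.Ioo 0 t) ?_ ?_
      (Ioo_mem_nhdsLT hT) ?_).mono Set.Icc_subset_Iic_self
    · intro s hs
      exact (hd s hs).differentiableAt.differentiableWithinAt
    · exact (hcx g hg).mono Set.Ioo_subset_Icc_self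
    · have h5 : Tendsto (fun s => Ew w (g' s) x) (𝓝[<] t) (𝓝 (Ew w (g' t) x)) := by
        have h6 := hcx g' hg'
        refine (h6 : Tendsto _ _ _).mono_left ?_
        rw [nhdsWithin_le_iff]
        exact mem_of_superset (Ioo_mem_nhdsLT hT) Set.Ioo_subset_Icc_self
      refine h5.congr' ?_
      filter_upwards [Ioo_mem_nhdsLT hT] with s hs
      exact (hd s hs).deriv.symm

open Classical in
theorem exd (k1 : Goal_C1) (k2 : Goal_C2) (k8 : Goal_C8) (k11 : Goal_C11) : ExdStmt := by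
  intro n T A θ hT hF hB
  have hsA : ∀ t, 0 < t → t < T → ∀ a i, Sm (fun x => A t x a i) := fun t h0 h1 a i =>
    (hF.flA a i).fam.sm t ⟨h0.le, h1⟩
  have hst : ∀ t, 0 < t → t < T → ∀ a i, Sm (fun x => θ t x a i) := fun t h0 h1 a i =>
    (hF.flt a i).fam.sm t ⟨h0.le, h1⟩
  have hsR : ∀ t, 0 < t → t < T → ∀ a b, Sm (fun x => Rcf (A t) (θ t) a b x) :=
    fun t h0 h1 a b => (fam_Rcf k8 (fun a i => (hF.flA a i).fam) (fun i a => (hF.flt i a).fam)
      a b).sm t ⟨h0.le, h1⟩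
  have hBA : ∀ a i, BB T (fun t x => A t x a i) := fun a i => BB_of_BW fun m => (hB m).1 a i
  have hBt : ∀ a i, BB T (fun t x => θ t x a i) := fun a i => BB_of_BW fun m => (hB m).2.1 a i
  have hBR : ∀ a b, BB T (fun t x => Rcf (A t) (θ t) a b x) := fun a b =>
    BB_of_BW fun m => (hB m).2.2 a b
  have hdA : ∀ a i, BB T (fun t x => ∑ b, Rcf (A t) (θ t) a b x * A t x b i) := by
    intro a i
    refine BB.sum k1 k2 (f := fun b t x => Rcf (A t) (θ t) a b x * A t x b i) ?_ ?_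
    · intro b
      exact BB.mul k1 k2 (hBR a b) (hBA b i) (fun t h0 h1 => hsR t h0 h1 a b)
        (fun t h0 h1 => hsA t h0 h1 b i)
    · intro b t h0 h1
      exact (k1 n).2.2.2.1 _ _ (hsR t h0 h1 a b) (hsA t h0 h1 b i)
  have hdt : ∀ i a, BB T (fun t x => -∑ b, θ t x i b * Rcf (A t) (θ t) b a x) := by
    intro i a
    refine BB.neg k2 ?_
    refine BB.sum k1 k2 (f := fun b t x => θ t x i b * Rcf (A t) (θ t) b a x) ?_ ?_
    · intro b
      exact BB.mul k1 k2 (hBt i b) (hBR b a) (fun t h0 h1 => hst t h0 h1 i b)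
        (fun t h0 h1 => hsR t h0 h1 b a)
    · intro b t h0 h1
      exact (k1 n).2.2.2.1 _ _ (hst t h0 h1 i b) (hsR t h0 h1 b a)
  have hlA := fun a i => lim k1 k11 hT (hF.flA a i) (hdA a i)
    ((1 : Matrix (Fin (n + 1)) (Fin (n + 1)) ℝ) a i)
  have hlt := fun i a => lim k1 k11 hT (hF.flt i a) (hdt i a)
    ((1 : Matrix (Fin (n + 1)) (Fin (n + 1)) ℝ) i a)
  choose uA uA1 uA2 uA3 using hlA
  choose ut ut1 ut2 ut3 using hlt
  set A' : ℝ → MF n := fun t => if t < T then A t else fun x => Matrix.of (fun a i => uA a i x)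
    with hA'
  set θ' : ℝ → MF n := fun t => if t < T then θ t else fun x => Matrix.of (fun i a => ut i a x)
    with hθ'
  have eA : ∀ t, t < T → A' t = A t := fun t ht => by simp only [hA', ht, if_true]
  have et : ∀ t, t < T → θ' t = θ t := fun t ht => by simp only [hθ', ht, if_true]
  have fA : ∀ a i, SmFam (Set.Icc 0 T) (fun t x => A' t x a i) := by
    intro a i
    have h1 := fam k1 hT (hF.flA a i).fam (uA1 a i) (uA3 a i)
    have h2 : (fun t x => A' t x a i) = fun t => if t < T then (fun x => A t x a i) else uA a i := by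
      funext t x
      simp only [hA']
      split_ifs <;> rfl
    rw [h2]
    exact h1
  have ft : ∀ i a, SmFam (Set.Icc 0 T) (fun t x => θ' t x i a) := by
    intro i a
    have h1 := fam k1 hT (hF.flt i a).fam (ut1 i a) (ut3 i a)
    have h2 : (fun t x => θ' t x i a) = fun t => if t < T then (fun x => θ t x i a) else ut i a := by
      funext t x
      simp only [hθ']
      split_ifs <;> rfl
    rw [h2]
    exact h1
  have hIoo : Set.Ioo 0 T ∈ 𝓝[<] T := Ioo_mem_nhdsLT hT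
  have hconv : ∀ (f : ℝ → EE n → ℝ) (u : EE n → ℝ), (∀ w, ∃ C, 0 ≤ C ∧
      ∀ t, 0 < t → t < T → ∀ x, x ≠ 0 → |Ew w (f t) x - Ew w u x| ≤ C * (T - t)) →
      ∀ x, x ≠ 0 → Tendsto (fun t => f t x) (𝓝[<] T) (𝓝 (u x)) := by
    intro f u hw x hx
    obtain ⟨C, hC, hl⟩ := hw []
    rw [tendsto_iff_dist_tendsto_zero]
    refine squeeze_zero' (g := fun t => C * (T - t)) (Eventually.of_forall fun t => dist_nonneg) ?_ ?_
    · filter_upwards [hIoo] with t ht
      rw [Real.dist_eq]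
      exact hl t ht.1 ht.2 x hx
    · have h5 : Tendsto (fun t : ℝ => C * (T - t)) (𝓝 T) (𝓝 (C * (T - T))) :=
        (by fun_prop : Continuous fun t : ℝ => C * (T - t)).tendsto T
      rw [sub_self, mul_zero] at h5
      exact h5.mono_left nhdsWithin_le_nhds
  have hinv : ∀ t ∈ Set.Icc 0 T, ∀ x, A' t x * θ' t x = 1 := by
    intro t ht x
    by_cases h1 : t < T
    · rw [eA t h1, et t h1]
      exact hF.inv t ⟨ht.1, h1⟩ x
    · have e1 : A' t x = Matrix.of (fun a i => uA a i x) := by simp only [hA', h1, if_false]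
      have e2 : θ' t x = Matrix.of (fun i a => ut i a x) := by simp only [hθ', h1, if_false]
      rw [e1, e2]
      by_cases hx : x = 0
      · have e3 : (Matrix.of (fun a i => uA a i x) : Matrix (Fin (n + 1)) (Fin (n + 1)) ℝ) = 1 := by
          ext a i
          rw [hx]
          exact uA2 a i
        have e4 : (Matrix.of (fun i a => ut i a x) : Matrix (Fin (n + 1)) (Fin (n + 1)) ℝ) = 1 := by
          ext a i
          rw [hx]
          exact ut2 a i
        rw [e3, e4, one_mul]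
      · ext a b
        rw [Matrix.mul_apply]
        have h2 : Tendsto (fun t => ∑ k, A t x a k * θ t x k b) (𝓝[<] T)
            (𝓝 (∑ k, uA a k x * ut k b x)) :=
          tendsto_finsetSum _ fun k _ =>
            (hconv (fun t x => A t x a k) _ (uA3 a k) x hx).mul
              (hconv (fun t x => θ t x k b) _ (ut3 k b) x hx)
        refine tendsto_nhds_unique h2 ?_
        refine tendsto_const_nhds.congr' ?_
        filter_upwards [hIoo] with t ht
        have h3 := congrFun (congrFun (hF.inv t ⟨ht.1.le, ht.2⟩ x) a) b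
        rw [Matrix.mul_apply] at h3
        exact h3.symm
  have hnA : ∀ t ∈ Set.Icc 0 T, ∀ x a, ∑ i, A' t x a i * x i = ∑ i, θ' t x i a * x i := by
    intro t ht x a
    by_cases h1 : t < T
    · rw [eA t h1, et t h1]
      exact hF.nA t ⟨ht.1, h1⟩ x a
    · have e1 : A' t x = Matrix.of (fun a i => uA a i x) := by simp only [hA', h1, if_false]
      have e2 : θ' t x = Matrix.of (fun i a => ut i a x) := by simp only [hθ', h1, if_false]
      rw [e1, e2]
      by_cases hx : x = 0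
      · simp [hx]
      · have h2 : Tendsto (fun t => ∑ k, A t x a k * x k) (𝓝[<] T) (𝓝 (∑ k, uA a k x * x k)) :=
          tendsto_finsetSum _ fun k _ =>
            (hconv (fun t x => A t x a k) _ (uA3 a k) x hx).mul tendsto_const_nhds
        have h3 : Tendsto (fun t => ∑ k, θ t x k a * x k) (𝓝[<] T) (𝓝 (∑ k, ut k a x * x k)) :=
          tendsto_finsetSum _ fun k _ =>
            (hconv (fun t x => θ t x k a) _ (ut3 k a) x hx).mul tendsto_const_nhds
        refine tendsto_nhds_unique h2 (h3.congr' ?_)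
        filter_upwards [hIoo] with t ht
        exact (hF.nA t ⟨ht.1.le, ht.2⟩ x a).symm
  have hC8 := k8 n (Set.Icc 0 T)
  have hmul := hC8.2.2.2.1
  have hsum := hC8.2.2.2.2.2.2.2.1
  have hneg := hC8.2.2.2.2.1
  have hRF : ∀ a b, SmFam (Set.Icc 0 T) (fun t x => Rcf (A' t) (θ' t) a b x) :=
    fun a b => fam_Rcf k8 fA ft a b
  refine ⟨A', θ', ⟨hinv, hnA, ?_, ?_⟩, ?_⟩
  · intro a i
    refine der hT (hF.flA a i) (fA a i) ?_ ?_ ?_
    · exact hsum _ _ (fun b t x => Rcf (A' t) (θ' t) a b x * A' t x b i) fun b _ =>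
        hmul _ _ (hRF a b) (fA b i)
    · intro t ht
      rw [eA t ht]
    · intro t ht
      rw [eA t ht, et t ht]
  · intro i a
    refine der hT (hF.flt i a) (ft i a) ?_ ?_ ?_
    · refine hneg _ ?_
      exact hsum _ _ (fun b t x => θ' t x i b * Rcf (A' t) (θ' t) b a x) fun b _ =>
        hmul _ _ (ft i b) (hRF b a)
    · intro t ht
      rw [et t ht]
    · intro t ht
      rw [eA t ht, et t ht]
  · intro t h0 h1 x _
    rw [eA t h1, et t h1]
    exact ⟨rfl, rfl⟩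

end Pool.Agent.Helper58.RFn.EXD
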